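import Mathlib
import Pool.Agent.Run7.h879.HA.Bridge
import Pool.Agent.TH170.FT.CommonDefs
import Pool.Agent.TH170.FT.MT

/-!
# Common `ℚ`-form of the `ℓ`-adic monodromy groups of abelian varieties with one Frobenius element:
one half of all slope types of every CM field of degree `2 r ^ k`

Let `A` be an abelian variety over a number field, of any dimension and with arbitrary
endomorphisms, which has good reduction at some place `v`, with a residue field of `p ^ a` elements.
Suppose that the characteristic polynomial of the Frobenius element at `v` is the product of the
minimal polynomials of Weil numbers `π i` that generate CM fields `K i` of degree `2 g i`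
(`HasFrobenius`); so `dim A = ∑ i, g i`. Nothing is assumed about the Galois groups of the fields `K
i`; they are pairwise independent: for `i ≠ k` and all complex embeddings `φ` of `K i` and `ψ` of `K
k` some automorphism of `ℂ` is the identity on `φ (K i)` and the complex conjugation on `ψ (K k)`
(this is no condition if there is only one field).

We fix an isomorphism `ν` of the algebraic closure of `ℚ_p` with `ℂ`; it defines a `p`-adic
valuation of `ℂ`, with the value one at `p`. Let `M i` be a function with integral values on the
complex embeddings of `K i`, invariant under complex conjugation (the weights). A CM type `Φ i` of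
`K i` (a choice of one element out of each complex conjugate pair of embeddings; there are `2 ^ (g
i)` types), `M i` and a real number `κ ≠ 0` prescribe the slopes `(a + κ M) / 2` (at the embeddings
in `Φ i`) and `(a - κ M) / 2` (outside of `Φ i`) of a Weil number in `K i` (`IsOfType`). If `p`
splits completely in `K i` then, by Honda and Tate, all slopes with rational values between `0` and
`a` that are symmetric in this way occur for abelian varieties over finite fields. The case `M = 1`,
`κ = a` is the case of ordinary reduction. Slopes are rational, so integral weights `M` are no
restriction.

The property `Q` (`Holds`) of a family of types: for all abelian varieties `A` as above with Weil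
numbers `π i` of the slope types `Φ i`, and all `ℓ₀` (such that the Frobenius element has this
characteristic polynomial for the primes `ℓ ≥ ℓ₀`; so `ℓ₀ > p`), **for all prime numbers `ℓ ≥ ℓ₀`
and all `m` each `ℓ`-adic Tate class in `(H^1)^{⊗ 2 m}(m)` is a linear combination, with
coefficients in `ℚ_ℓ`, of rational forms on `W = H_1(A, ℚ)` which are Tate classes for all prime
numbers `≥ ℓ₀` and products of Hodge classes of degree two** (`HasCommonForm`). The identity
component of the Zariski closure of the image of the Galois group is reductive and contains the
homotheties; it is the group of the elements of `GSp` which fix all Tate classes. So there is an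
algebraic group over `ℚ` (the identity component of the Lefschetz group, which consists of the
similitudes of the polarization form that commute with the endomorphisms of `A`) which becomes the
connected monodromy group over `ℚ_ℓ` for all `ℓ ≥ ℓ₀`; this translation is not formalized.

In the formal statement `per` is the inclusion of `W` in the tangent space, `ω₀` the form given by a
polarization, and `D ℓ` (`GaloisData`) consists of the action of the Galois group on the rational
Tate module `ℚ_ℓ ⊗ W`, the cyclotomic character, the Weil pairing, the theorems of Faltings on
endomorphisms and on semisimplicity (`IsRealization`) and the theorem of Deligne that Hodge classes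
are Tate classes. That the absence of relations between the conjugates of the Weil numbers of one
Frobenius element implies this was formalized before in the starting files (MP_c1bb77_ag
OneFrobeniusTowers, MP_33b3f9_ag AllCMFields).

**The theorem.** Let `E` be **any CM field of degree `2 g = 2 r ^ k`**, `r` a prime number, of
degree at least `16` if `r = 2`. Nothing is assumed about the Galois group of the normal closure of
`E`, and nothing about the subfields of `E`.

* (`HalfOfAll`) For all weights `M` (odd if `r = 2`; if `r` is odd then `r` may divide some, but not
  all of them) the property `Q` is true for **at least one half of all `2 ^ g` types** of `E`.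
* (`MostWithWeightsOne`) For the weights `M = 1` (for instance in the ordinary case) it is true for
  at least `(1 - 1 / r) 2 ^ g` of the types.
* (`OneOfTwo`) There is a set `B` of embeddings of `E`, stable under complex conjugation, such that
  for **every** type `Φ` it is true for `Φ` or for the symmetric difference of `Φ` and `B`.
* (`SixteenPercent`) There is a number `g₀` such that for every CM field that is **abelian over
  `ℚ`**, of any degree `2 g ≥ 2 g₀`, and all odd weights it is true for at least 16 percent of all
  `2 ^ g` types; again nothing is assumed on the subfields.

All this is proved more generally for finitely many pairwise independent fields `K i`; the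
proportions are then multiplied. The bounds of the starting files (`AlmostAllFrobeniusTypes`,
`AllCMFields`) can say nothing for these fields if they have many CM subfields (for instance for the
multiquadratic ones, where one half is the best possible proportion for the types without
relations).

The proof: if the types have no relations then there are no multiplicative relations between the
conjugates of the Weil numbers `π i`, so that the Frobenius torus is as large as possible, and the
Tate classes are generated in degree two (`TH170/FT` of the starting files). The proportion of the
types without relations (`NoRelations`) is at least one half by the theorem of the starting files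
(`Q29/DP`, `Q29/EP`), which was used there for other conjectures.
-/

set_option autoImplicit false

namespace Pool.Agent.Results.MP_e965d0_ag.HalfOfAllTypes

open NumberField Module Pool.Agent.H204R3.CM Pool.Agent.H977R3.CM Pool.Agent.TH170
  Pool.Agent.Q29.EP Pool.Agent.Run7.h879.HA



/-- The common `ℚ`-form for the abelian varieties with a Frobenius element whose characteristic
polynomial is the product of the minimal polynomials of Weil numbers `π i` for `p ^ a` with the slope
types `Φ i`, `M i`. -/
def HoldsAt {p : ℕ} [Fact p.Prime] (ν : PadicAlgCl p ≃+* ℂ) {I : Type} [Fintype I]
    (K : I → Type) [∀ i, Field (K i)] [∀ i, NumberField (K i)] [∀ i, IsCMField (K i)]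
    (M : ∀ i, (K i →+* ℂ) → ℤ) (Φ : ∀ i, Set (K i →+* ℂ)) (a : ℕ) (π : ∀ i, K i) : Prop :=
  ∀ (W T Γ : Type) [AddCommGroup W] [Module ℚ W] [FiniteDimensional ℚ W] [AddCommGroup T]
    [Module ℂ T] [Group Γ] (per : W →+ T) (ω₀ : W →ₗ[ℚ] W →ₗ[ℚ] ℚ)
    (D : ∀ (ℓ : ℕ) [Fact ℓ.Prime], FT.GaloisData per ω₀ Γ ℓ) (ℓ₀ : ℕ),
    FT.IsOfType ν a K M Φ π →
      (∀ (ℓ : ℕ) [Fact ℓ.Prime], ℓ₀ ≤ ℓ → FT.HasFrobenius (D ℓ).ρ (D ℓ).χ p a π) →
        FT.HasCommonForm D ℓ₀

/-- The same for all Weil numbers with the slope types `Φ i`, `M i`. -/
def Holds {p : ℕ} [Fact p.Prime] (ν : PadicAlgCl p ≃+* ℂ) {I : Type} [Fintype I]
    (K : I → Type) [∀ i, Field (K i)] [∀ i, NumberField (K i)] [∀ i, IsCMField (K i)]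
    (M : ∀ i, (K i →+* ℂ) → ℤ) (Φ : ∀ i, Set (K i →+* ℂ)) : Prop :=
  ∀ (a : ℕ) (π : ∀ i, K i), 0 < a → HoldsAt ν K M Φ a π

/-- The property `Holds` of the families of slope types. -/
def Q : TypeProperty := fun _ _ ν _ _ K _ _ _ M Φ => Holds ν K M Φ

/-- **Common `ℚ`-form of the `ℓ`-adic monodromy groups of abelian varieties with a Frobenius element
with one half of all slope types of every CM field of degree `2 r ^ k`.** -/
theorem result : HalfOfAll Q ∧ MostWithWeightsOne Q ∧ OneOfTwo Q ∧ SixteenPercent Q :=
  four (of_notMem fun _ _ _ _ _ _ _ _ _ _ _ hind hM hΦ hnd =>
    fun _ _ ha _ _ _ _ _ _ _ _ _ _ _ D ℓ₀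
      hπ hF => FT.hasCommonForm_of D ℓ₀ fun ℓ _ hℓ =>
        FT.mumfordTate_of_types hind hM hΦ hnd ha hπ (D ℓ).realization (hF ℓ hℓ))

end Pool.Agent.Results.MP_e965d0_ag.HalfOfAllTypes
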