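import Mathlib
import Pool.Agent.Run7.h370.MR.Conc

/-!
# Common `ℚ`-form of the `ℓ`-adic monodromy groups of abelian varieties with a Frobenius element whose
slopes are nondegenerate modulo a prime

Let `E k` be finitely many CM fields and `π k i`, `i : I k`, finitely many Weil numbers for `q = p ^ a`
in `E k`. The slope deviation of `π k i` is the function `dev p a (π k i) τ = 2 ord_p (τ (π k i)) - a` of
the embeddings `τ` of `E k` in the algebraic closure of `ℚ_p`; its values are `a (2 λ - 1)` for the
slopes `λ` of the abelian variety. Nothing is assumed about the Galois groups of the fields. Different
fields are flipped (`FieldsFlipped`): for complex embeddings `φ` of `E k` and `ψ` of `E l`, `k ≠ l`,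
some automorphism of `ℂ` fixes one of them and maps the other one to its complex conjugate. This is
no condition if there is only one field, and it is true if the normal closures of the fields are
linearly disjoint. There are three conditions on the slopes:

1. (`SlopesModPrime`) For each `k` let `r k` be a prime number. The slope deviations of the `π k i`,
  `i : I k`, are the multiples `κ * u i` of one number `κ ≠ 0`, with integral functions `u i`, and there
  is a group `H` of automorphisms of the algebraic closure of `ℚ_p` each of which acts on the set of
  the embeddings `τ` of `E k` with an order that is a power of `r k` (so this is any subgroup of
  `r k`-power order of the Galois group of the normal closure, for instance a Sylow subgroup, with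
  any orbits), such that the functions `u i` are nondegenerate modulo `r k` (`NondegenerateMod`): if
  `b i` are functions on the embeddings with values in `ℤ / r k`, invariant under `H`, with
  `b i (conj τ) = - b i τ` and `∑ i, ∑ τ, b i τ * u i (g τ) = 0` for all automorphisms `g`, the sum
  over representatives `τ` of the pairs of conjugate embeddings, then all `b i` are zero. So for each
  pair of conjugate orbits of `H` there is one unknown number modulo `r k` for each `i`, and the
  condition is that the linear equations for them, one for each `g`, have only the trivial solution.
2. (`TwoAdicSlopes`) There is one Weil number `π k` for each `k`, and `E k` is an extension of 2-power
  degree of a field `R k` whose normal closure over `ℚ` has odd degree. For an embedding `σ` of `R k`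
  let `N σ` (`oddPairs`) be the number of the pairs of conjugate embeddings `τ` over `σ` with odd
  `u τ`. The condition is that there is no function `β ≠ 0` with values modulo `2` such that
  `∑ σ, β σ * N (g σ) = 0` for all automorphisms `g`.
3. (`OneOddEmbedding`) The same, where `N σ` is odd for exactly one embedding `σ` of `R k`. For
  instance, let `R` be cyclic of degree three and `[E : R] = 2 ^ (t + 1)`, and let all slopes of the
  abelian variety, of dimension `3 * 2 ^ t`, be `0`, `1 / 2` or `1`: then `N σ` is the number of the
  embeddings over `σ` with slope `0`, so the `p`-rank is the sum of the three numbers `N σ`, and the
  condition is that exactly one of them is odd.

The conclusion (`CommonFormFor`). Let `A` be an abelian variety over a number field (or a finitely generated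
subfield of the complex numbers), with arbitrary endomorphisms, which has good reduction at some place
`v`, with a residue field of `p ^ a` elements. Suppose that the characteristic polynomial of the
Frobenius element at `v` is the product of the minimal polynomials of the Weil numbers `π k i`
(`HasFrobenius`). (This is assumed for all prime numbers `ℓ ≥ ℓ₀`; so `ℓ₀ > p`.)
Then **for all prime numbers `ℓ ≥ ℓ₀` and all `m` each `ℓ`-adic Tate class in `(H^1)^{⊗ 2 m}(m)` is a
linear combination, with coefficients in `ℚ_ℓ`, of rational forms on `W = H_1(A, ℚ)` which are Tate
classes for all prime numbers `≥ ℓ₀` and products of Hodge classes of degree two** (`HasCommonForm`).
The identity component of the Zariski closure of the image of the Galois group is reductive and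
contains the homotheties; it is the group of the elements of `GSp` which fix all Tate classes. So there
is an algebraic group over `ℚ` (the identity component of the Lefschetz group) which becomes the
connected monodromy group over `ℚ_ℓ` for all `ℓ ≥ ℓ₀`; this translation is the one of MP_e965d0_ag
QuarticForms and it is not formalized. In the formal statement `per` is the inclusion of `W` in the
tangent space, `ω₀` the form given by a polarization, and `D ℓ` (`GaloisData`) consists of the action of
the Galois group on the rational Tate module `ℚ_ℓ ⊗ W`, the cyclotomic character, the Weil pairing,
the theorems of Faltings on endomorphisms and on semisimplicity (`IsRealization`) and the theorem of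
Deligne that Hodge classes are Tate classes. That the maximality of the angle rank for one Frobenius element implies this
conclusion is a theorem of the starting files (TH170.FT).

The starting files contain criteria of this kind for one Weil number in each field: `PrimePowerCentre`
and `OddClasses` of MP_0d42ed_ag (where the `r`-group is transitive on the pairs of conjugate
embeddings; so the third part is not new for `R = ℚ` as far as the criterion is concerned),
`OneFrobeniusSignature` and `FrobeniusPrimePower` (odd `r`, transitive on the embeddings over those of
an imaginary quadratic field), `OneFrobeniusTowers` (towers over CM fields, odd `r`). New here are
arbitrary groups of prime power order with several orbits, several Weil numbers in the same field, and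
the 2-adic towers. The conclusion is derived from the criterion by theorems of the starting files.

The proof. Suppose that a product of powers `φ (π k i) ^ n (k, i, φ)` is a power of `q`, up to a root of
unity. The `p`-adic valuations of its images under all automorphisms give relations, for each field
separately since the fields are flipped: `∑ i, ∑ φ, c i φ * u i (g φ) = 0` for all `g`, where
`c i φ = n i φ - n i (conj φ)`. If `c ≠ 0` we divide it by the greatest common divisor of its values and
reduce modulo `r`. The relations have to be restricted to representatives of the pairs of conjugate
embeddings before the reduction (the restricted relations are still true, as the two halves of the sum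
are equal; for `r = 2` this is essential, since modulo `2` there are no signs). So the space of the odd
functions modulo `r` with all the relations is not zero. Its number of elements is a power of `r`, the
group `H` acts on it through a group of `r`-power order, so it contains a nonzero function which is
invariant under `H`, a contradiction. So the angle rank is maximal (`MaximalAngleRank`). For a 2-adic
tower one takes for `H` the preimage of a Sylow 2-subgroup of the Galois group: it acts trivially on
the embeddings of `R`, since the normal closure of `R` has odd degree, and transitively on the
embeddings of `E` over each of them. The complex conjugation is the identity on `R`.
-/

set_option autoImplicit false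

namespace Pool.Agent.Results.MP_e965d0_ag.SlopesModPrime

open Run7.h370.MR

/-- **Common `ℚ`-form of the `ℓ`-adic monodromy groups of the abelian varieties with a Frobenius element
whose slopes are nondegenerate modulo a prime number.** -/
theorem result :
    WeilModular (fun p _ a _ _ K _ _ _ π => CommonFormFor p a K π) ∧
    WeilTwoAdic (fun p _ a _ _ K _ _ _ π => CommonFormFor p a K π) ∧
    WeilOneOdd (fun p _ a _ _ K _ _ _ π => CommonFormFor p a K π) :=
  ⟨weilModular commonFormFor, weilTwoAdic commonFormFor, weilOneOdd commonFormFor⟩

end Pool.Agent.Results.MP_e965d0_ag.SlopesModPrime
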