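import Mathlib
import Pool.Agent.Run7.h479.SO.Frob
import Pool.Agent.Run7.h479.SO.Criteria

/-!
# Common `ℚ`-form of the `ℓ`-adic monodromy groups of abelian varieties with a Frobenius element whose
slopes on a half orbit do not sum to a sum of prime divisors of the dimension

Let `A` be an abelian variety over a number field (or a finitely generated subfield of the complex
numbers), of any dimension and with arbitrary endomorphisms, which has good reduction at ONE place
`v`, with a residue field of `p ^ a` elements, such that the characteristic polynomial of the
Frobenius element at `v` is the product of the minimal polynomials of Weil numbers `π i` in CM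
fields `F i` of degree `2 n i` (`HasFrobenius`); so `dim A = ∑ i, n i`. The starting results for one
Frobenius element need one of: large Galois groups, degrees that are (twice) powers of a prime
number, or almost all slope types. Here the degrees are arbitrary and the Galois groups may be as
small as cyclic groups. We assume:

* (`HalfOrbit`) There is a set `O` of complex embeddings of `F i`, one of each pair of complex
  conjugate embeddings, which is an orbit of a group of automorphisms of `ℂ` that acts on `O`
  through a commutative group. By Chebotarev's density theorem it is enough that some prime number is
  inert in the maximal real subfield of `F i` and splits in `F i` (then one automorphism generates a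
  group with such an orbit; this is proved in the file `Criteria.lean`). If `F i` contains an
  imaginary quadratic field `E`, it is enough that some prime number is inert in the maximal real
  subfield (whose normal closure is real, and so linearly disjoint from `E`), and `O` is the set of
  the embeddings that extend a given embedding of `E`.
* (`GoodSlopes`) We write `cdev ν a x φ = 2 ord_p (x) - a` for the deviation of the slope of `x` at
  the embedding `φ` from the middle, where an isomorphism `ν` of the algebraic closure of `ℚ_p` with
  `ℂ` makes `φ` a `p`-adic embedding. For some `ν` the sum of the deviations of `π i` over `O` is not
  zero; and for some `ν` the deviations of `π i` on `O` are `b w + c` with real numbers `b ≠ 0`, `c`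
  and natural numbers `w`, such that **the sum `k` of the numbers `w` over `O` is not a sum of prime
  divisors of `n i`** (with repetitions; `0` is the empty sum).
* (`Separated`, only if there are several fields) For `i ≠ i'` some automorphism acts on the complex
  embeddings of each of the fields as `1` or as the complex conjugation, as `1` for `F i` and as the
  complex conjugation for `F i'`.

For instance let there be one field and let the slopes be `λ` and `1 - λ` only, `λ ≠ 1/2` (`λ = 0` is
the ordinary case). Then `w` can be the characteristic function of the set of the embeddings in `O`
with slope `1 - λ`, and `k` is the number of these embeddings; by the same argument for the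
complement, it is enough that `k` or `n - k` is not a sum of prime divisors of `n` (and `2 k ≠ n`).
For `n = 15` the only signatures `(k, n - k)` which are excluded are those with `k` or `n - k` equal
to `0, 3, 5, 6`. In general the condition is true if `0 < k` is less than all prime divisors of `n`,
and if `k = r s - r - s` and `n` is divisible by no primes other than `r` and `s` (proved in
`Criteria.lean`). Conversely, the condition cannot be improved for the cyclic group of order `n`: if
`k` is a sum of prime divisors of `n` then it is the sum of the values of a function `w` which is a
sum of characteristic functions of cosets of subgroups of prime order, and the translates of this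
`w` do not span the functions on the group.

**Then, for all `ℓ₀` (such that the Frobenius element has this characteristic polynomial for the primes
`ℓ ≥ ℓ₀`; so `ℓ₀ > p`), for all prime numbers `ℓ ≥ ℓ₀` and all `m` each `ℓ`-adic Tate class in
`(H^1)^{⊗ 2 m}(m)` is a linear combination, with coefficients in `ℚ_ℓ`, of rational forms on
`W = H_1(A, ℚ)` which are Tate classes for all prime numbers `≥ ℓ₀` and products of Hodge classes of
degree two** (`HasCommonForm`). The identity component of the Zariski closure of the image of the
Galois group is reductive and contains the homotheties; it is the group of the elements of `GSp`
which fix all Tate classes. So there is an algebraic group over `ℚ` (the identity component of the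
Lefschetz group, which consists of the similitudes of the polarization form that commute with the
endomorphisms of `A`) which becomes the connected monodromy group over `ℚ_ℓ` for all `ℓ ≥ ℓ₀`; this
translation is the one of MP_e965d0_ag QuarticForms and it is not formalized.

In the formal statement `per` is the inclusion of `W` in the tangent space, `ω₀` the form given by a
polarization, and `D ℓ` (`GaloisData`) consists of the action of the Galois group on the rational
Tate module `ℚ_ℓ ⊗ W`, the cyclotomic character, the Weil pairing, the theorems of Faltings on
endomorphisms and on semisimplicity (`IsRealization`) and the theorem of Deligne that Hodge classes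
are Tate classes. The Mumford-Tate conjecture for these abelian varieties is MP_33b3f9_ag
VanishingSums.

The proof. Suppose that the product of some powers `φ (π i) ^ m (i, φ)` is a power of `q = p ^ a`, up
to a root of unity. Let `c (i, φ) = m (i, φ) - m (i, conj φ)`. The `p`-adic valuations of the images
under the automorphisms `σ` give `∑ c (i, φ) * cdev (σ φ) = 0`. `Separated` and Dedekind's theorem on
the linear independence of characters (of the group of the automorphisms acting as `± 1`) give these
relations for every `i` separately. The sum over the orbit `O` and the first slope condition give
`∑_O c = 0`, and then the second slope condition gives `∑_O c (φ) w (σ φ) = 0` for all `σ` in the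
group. The commutative transitive group `B` of permutations of `O` is simply transitive, so `w` is a
function on the group `B`, and if `c ≠ 0`, then a Fourier coefficient `∑ w (b) ψ (b)` of `w` for a
character `ψ` of `B` is zero. Its terms are `k` roots of unity of order dividing `n`, and by the
theorem of Lam and Leung (1996) on vanishing sums of roots of unity the number `k` of terms is a sum
of prime divisors of `n`, a contradiction. The theorem of Lam and Leung is proved in the files `LL`.
-/

set_option autoImplicit false

namespace Pool.Agent.Results.MP_e965d0_ag.VanishingSums

open NumberField Module Pool.Agent.TH170 Pool.Agent.Run7.h479.SO

/-- **Common `ℚ`-form of the `ℓ`-adic monodromy groups of abelian varieties with a Frobenius element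
with good slopes on half orbits.** -/
theorem result (p : ℕ) [Fact p.Prime] (a : ℕ) (ha : 0 < a)
    (ι : Type) [Fintype ι] (F : ι → Type) [∀ i, Field (F i)] [∀ i, NumberField (F i)]
    [∀ i, IsCMField (F i)] (π : ∀ i, F i)
    (hweil : ∀ i, π i * IsCMField.complexConj (F i) (π i) = (p : F i) ^ a)
    (hsep : Separated F) (hgood : ∀ i, GoodSlopes p a (π i))
    (W T Γ : Type) [AddCommGroup W] [Module ℚ W] [FiniteDimensional ℚ W] [AddCommGroup T]
    [Module ℂ T] [Group Γ] (per : W →+ T) (ω₀ : W →ₗ[ℚ] W →ₗ[ℚ] ℚ)
    (D : ∀ (ℓ : ℕ) [Fact ℓ.Prime], FT.GaloisData per ω₀ Γ ℓ) (ℓ₀ : ℕ)
    (hF : ∀ (ℓ : ℕ) [Fact ℓ.Prime], ℓ₀ ≤ ℓ → FT.HasFrobenius (D ℓ).ρ (D ℓ).χ p a π) :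
    FT.HasCommonForm D ℓ₀ :=
  FT.hasCommonForm_of D ℓ₀ fun ℓ _ hℓ =>
    mumfordTate_of_good ha hweil hsep hgood (D ℓ).realization (hF ℓ hℓ)

end Pool.Agent.Results.MP_e965d0_ag.VanishingSums
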